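import Pool.Agent.Helper15.T4.Stmts

set_option autoImplicit false

open Finset

namespace Pool.Agent.Helper7.T4.IT

open Pool.Agent.Helper15.T4

abbrev V : Type := EuclideanSpace ℝ (L1 ⊕ L1)

noncomputable def Ph (v : V) (i : L1) : ℂ :=
  ((v (Sum.inl i) : ℝ) : ℂ) + ((Real.sqrt (5 / 8) * v (Sum.inr i) : ℝ) : ℂ) * Complex.I

noncomputable def Ps (z : L1 → ℂ) : V :=
  WithLp.toLp 2 (Sum.elim (fun i => (z i).re) (fun i => Real.sqrt (8 / 5) * (z i).im))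

lemma Ph_Ps (z : L1 → ℂ) : Ph (Ps z) = z := by
  funext i
  have h : Real.sqrt (5 / 8) * Real.sqrt (8 / 5) = 1 := by
    rw [← Real.sqrt_mul (by norm_num)]; norm_num
  have h2 : Real.sqrt (5 / 8) * (Real.sqrt (8 / 5) * (z i).im) = (z i).im := by
    rw [← mul_assoc, h, one_mul]
  simp only [Ph, Ps, Sum.elim_inl, Sum.elim_inr, h2]
  exact Complex.re_add_im (z i)

lemma Ph_add (v w : V) : Ph (v + w) = Ph v + Ph w := by
  funext i
  simp only [Ph, PiLp.add_apply, Pi.add_apply]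
  push_cast
  ring

lemma Ph_smul (c : ℝ) (v : V) : Ph (c • v) = (c : ℂ) • Ph v := by
  funext i
  simp only [Ph, PiLp.smul_apply, Pi.smul_apply, smul_eq_mul]
  push_cast
  ring

lemma Ph_inj (v w : V) (h : Ph v = Ph w) : v = w := by
  have hs : Real.sqrt (5 / 8) ≠ 0 := by
    have : (0 : ℝ) < Real.sqrt (5 / 8) := Real.sqrt_pos.2 (by norm_num)
    exact this.ne'
  ext i
  rcases i with i | i
  · have := congrArg Complex.re (congrFun h i)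
    simpa [Ph] using this
  · have := congrArg Complex.im (congrFun h i)
    simpa [Ph, hs] using this

lemma ncq_Ph (v : V) : ncq (Ph v) = ‖v‖ ^ 2 := by
  rw [EuclideanSpace.real_norm_sq_eq, Fintype.sum_sum_type]
  unfold ncq
  congr 1
  · refine Finset.sum_congr rfl (fun i _ => ?_)
    simp [Ph]
  · rw [Finset.mul_sum]
    refine Finset.sum_congr rfl (fun i _ => ?_)
    have h : (Real.sqrt (5 / 8)) ^ 2 = 5 / 8 := Real.sq_sqrt (by norm_num)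
    have : (Ph v i).im = Real.sqrt (5 / 8) * v (Sum.inr i) := by simp [Ph]
    rw [this, mul_pow, h]
    ring

lemma lc_add (a : L1) (x y : L1 → ℂ) : m1.lc a (x + y) = m1.lc a x + m1.lc a y := by
  simp only [Mdl.lc, Pi.add_apply, mul_add, Finset.sum_add_distrib]

lemma lc_smul (a : L1) (c : ℂ) (x : L1 → ℂ) : m1.lc a (c • x) = c * m1.lc a x := by
  simp only [Mdl.lc, Pi.smul_apply, smul_eq_mul, Finset.mul_sum]
  refine Finset.sum_congr rfl (fun i _ => ?_)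
  ring

lemma w1_swap (a b c : L1) : w1 a b c = w1 b a c ∧ w1 a b c = w1 a c b := by
  constructor
  · unfold w1
    congr 1
    apply propext
    constructor
    · rintro ⟨h1, h2, h3, h4, h5⟩
      exact ⟨h1.symm, h3, h2, h4.symm, h4.symm.trans h5⟩
    · rintro ⟨h1, h2, h3, h4, h5⟩
      exact ⟨h1.symm, h3, h2, h4.symm, h4.symm.trans h5⟩
  · unfold w1
    congr 1
    apply propext
    constructor
    · rintro ⟨h1, h2, h3, h4, h5⟩
      exact ⟨h2, h1, h3.symm, h5, h4⟩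
    · rintro ⟨h1, h2, h3, h4, h5⟩
      exact ⟨h2, h1, h3.symm, h5, h4⟩

lemma Tc_sw1 (x y z : L1 → ℂ) : m1.Tc x y z = m1.Tc y x z := by
  unfold Mdl.Tc
  rw [Finset.sum_comm]
  refine Finset.sum_congr rfl (fun a _ => Finset.sum_congr rfl (fun b _ =>
    Finset.sum_congr rfl (fun c _ => ?_)))
  have : m1.w b a c = m1.w a b c := (w1_swap b a c).1
  rw [this]
  ring

lemma Tc_sw2 (x y z : L1 → ℂ) : m1.Tc x y z = m1.Tc x z y := by
  unfold Mdl.Tc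
  refine Finset.sum_congr rfl (fun a _ => ?_)
  rw [Finset.sum_comm]
  refine Finset.sum_congr rfl (fun b _ =>
    Finset.sum_congr rfl (fun c _ => ?_))
  have : m1.w a c b = m1.w a b c := (w1_swap a c b).2
  rw [this]
  ring

lemma Tc_add3 (x y z z' : L1 → ℂ) : m1.Tc x y (z + z') = m1.Tc x y z + m1.Tc x y z' := by
  unfold Mdl.Tc
  simp only [lc_add, mul_add, Finset.sum_add_distrib]

lemma Tc_smul3 (c : ℂ) (x y z : L1 → ℂ) : m1.Tc x y (c • z) = c * m1.Tc x y z := by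
  unfold Mdl.Tc
  simp only [lc_smul, Finset.mul_sum]
  refine Finset.sum_congr rfl (fun a _ => Finset.sum_congr rfl (fun b _ =>
    Finset.sum_congr rfl (fun d _ => ?_)))
  ring

lemma Tc_add2 (x y y' z : L1 → ℂ) : m1.Tc x (y + y') z = m1.Tc x y z + m1.Tc x y' z := by
  rw [Tc_sw2, Tc_add3, Tc_sw2 x z y, Tc_sw2 x z y']

lemma Tc_smul2 (c : ℂ) (x y z : L1 → ℂ) : m1.Tc x (c • y) z = c * m1.Tc x y z := by
  rw [Tc_sw2, Tc_smul3, Tc_sw2 x z y]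

lemma Tc_add1 (x x' y z : L1 → ℂ) : m1.Tc (x + x') y z = m1.Tc x y z + m1.Tc x' y z := by
  rw [Tc_sw1, Tc_add2, Tc_sw1 y x, Tc_sw1 y x']

lemma Tc_smul1 (c : ℂ) (x y z : L1 → ℂ) : m1.Tc (c • x) y z = c * m1.Tc x y z := by
  rw [Tc_sw1, Tc_smul2, Tc_sw1 y x]

lemma re_aux (e w : ℂ) (c : ℝ) : (e * ((c : ℂ) * w)).re = c • (e * w).re := by
  have : e * ((c : ℂ) * w) = (c : ℂ) * (e * w) := by ring
  rw [this, Complex.re_ofReal_mul, smul_eq_mul]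

/-- The real trilinear form. -/
noncomputable def TT (e : ℂ) : V →ₗ[ℝ] V →ₗ[ℝ] V →ₗ[ℝ] ℝ where
  toFun x := LinearMap.mk₂ ℝ (fun y z => (e * m1.Tc (Ph x) (Ph y) (Ph z)).re)
    (fun y y' z => by simp only [Ph_add, Tc_add2, mul_add, Complex.add_re])
    (fun c y z => by simp only [Ph_smul, Tc_smul2, re_aux])
    (fun y z z' => by simp only [Ph_add, Tc_add3, mul_add, Complex.add_re])
    (fun c y z => by simp only [Ph_smul, Tc_smul3, re_aux])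
  map_add' x x' := by
    ext y z
    simp only [LinearMap.mk₂_apply, LinearMap.add_apply, Ph_add, Tc_add1, mul_add, Complex.add_re]
  map_smul' c x := by
    ext y z
    simp only [LinearMap.mk₂_apply, LinearMap.smul_apply, Ph_smul, Tc_smul1, re_aux,
      RingHom.id_apply]

lemma TT_apply (e : ℂ) (x y z : V) : TT e x y z = (e * m1.Tc (Ph x) (Ph y) (Ph z)).re := rfl

lemma TT_le (e : ℂ) (he : ‖e‖ = 1) (x y z : V) : |TT e x y z| ≤ ‖m1.Tc (Ph x) (Ph y) (Ph z)‖ := by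
  rw [TT_apply]
  refine (Complex.abs_re_le_norm _).trans ?_
  rw [norm_mul, he, one_mul]

theorem st_IT (hIA : ST_IA) (hBAN : ST_BAN) : ST_IT := by
  have hC : (Real.sqrt (8 / 3)) ^ 2 = 8 / 3 := Real.sq_sqrt (by norm_num)
  have hC0 : 0 < Real.sqrt (8 / 3) := Real.sqrt_pos.2 (by norm_num)
  set C : ℝ := Real.sqrt (8 / 3) with hCdef
  have hIA1 : ∀ v : V, ‖m1.Tc (Ph v) (Ph v) (Ph v)‖ ≤ C * ‖v‖ ^ 3 := by
    intro v
    have h := (hIA (Ph v)).1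
    rw [ncq_Ph] at h
    refine le_of_sq_le_sq ?_ (by positivity)
    calc ‖m1.Tc (Ph v) (Ph v) (Ph v)‖ ^ 2 ≤ 8 / 3 * (‖v‖ ^ 2) ^ 3 := h
      _ = (C * ‖v‖ ^ 3) ^ 2 := by rw [mul_pow, hC]; ring
  have hdiag : ∀ e : ℂ, ‖e‖ = 1 → ∀ v : V, |TT e v v v| ≤ C * ‖v‖ ^ 3 := fun e he v =>
    (TT_le e he v v v).trans (hIA1 v)
  have hs1 : ∀ (e : ℂ) (x y z : V), TT e x y z = TT e y x z := by
    intro e x y z
    rw [TT_apply, TT_apply, Tc_sw1]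
  have hs2 : ∀ (e : ℂ) (x y z : V), TT e x y z = TT e x z y := by
    intro e x y z
    rw [TT_apply, TT_apply, Tc_sw2]
  let u : V := Ps (fun _ => 1)
  have hu : Ph u = fun _ => 1 := Ph_Ps _
  have hconst : ∀ (v : V) (s : ℝ), v = s • u → Ph v = fun _ => (s : ℂ) := by
    intro v s h
    rw [h, Ph_smul, hu]
    funext i
    simp
  have hequ : ∀ e : ℂ, ‖e‖ = 1 → ∀ v : V, |TT e v v v| = C * ‖v‖ ^ 3 → ∃ s : ℝ, v = s • u := by
    intro e he v hv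
    have h1 : ‖m1.Tc (Ph v) (Ph v) (Ph v)‖ = C * ‖v‖ ^ 3 :=
      le_antisymm (hIA1 v) (by rw [← hv]; exact TT_le e he v v v)
    have h2 : ‖m1.Tc (Ph v) (Ph v) (Ph v)‖ ^ 2 = 8 / 3 * ncq (Ph v) ^ 3 := by
      rw [h1, ncq_Ph, mul_pow, hC]; ring
    obtain ⟨s, hs⟩ := (hIA (Ph v)).2 h2
    refine ⟨s, Ph_inj _ _ ?_⟩
    rw [hs, Ph_smul, hu]
    funext i
    simp
  intro x y z
  have key : ∃ e : ℂ, ‖e‖ = 1 ∧ (e * m1.Tc x y z).re = ‖m1.Tc x y z‖ := by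
    obtain ⟨e, he, h⟩ := Complex.exists_norm_eq_mul_self (m1.Tc x y z)
    exact ⟨e, he, by rw [← h, Complex.ofReal_re]⟩
  obtain ⟨e, he, hre⟩ := key
  have hT : TT e (Ps x) (Ps y) (Ps z) = ‖m1.Tc x y z‖ := by
    rw [TT_apply, Ph_Ps, Ph_Ps, Ph_Ps, hre]
  have hn : ∀ w : L1 → ℂ, ncq w = ‖Ps w‖ ^ 2 := fun w => by rw [← ncq_Ph, Ph_Ps]
  obtain ⟨hB1, hB2⟩ := hBAN V (TT e) C (hs1 e) (hs2 e) (hdiag e he)
  have hle : ‖m1.Tc x y z‖ ≤ C * ‖Ps x‖ * ‖Ps y‖ * ‖Ps z‖ := by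
    have := hB1 (Ps x) (Ps y) (Ps z)
    rw [hT, abs_of_nonneg (norm_nonneg _)] at this
    exact this
  constructor
  · calc ‖m1.Tc x y z‖ ^ 2 ≤ (C * ‖Ps x‖ * ‖Ps y‖ * ‖Ps z‖) ^ 2 :=
        pow_le_pow_left₀ (norm_nonneg _) hle 2
      _ = 8 / 3 * (ncq x * ncq y * ncq z) := by
        rw [hn x, hn y, hn z]
        have : (C * ‖Ps x‖ * ‖Ps y‖ * ‖Ps z‖) ^ 2 =
          C ^ 2 * (‖Ps x‖ ^ 2 * ‖Ps y‖ ^ 2 * ‖Ps z‖ ^ 2) := by ring
        rw [this, hC]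
  · intro heq hx hy hz
    have hne : ∀ w : L1 → ℂ, ncq w ≠ 0 → Ps w ≠ 0 := by
      intro w hw h0
      apply hw
      rw [hn w, h0, norm_zero]
      norm_num
    have heq2 : |TT e (Ps x) (Ps y) (Ps z)| = C * ‖Ps x‖ * ‖Ps y‖ * ‖Ps z‖ := by
      rw [hT, abs_of_nonneg (norm_nonneg _)]
      have h0 : 0 ≤ C * ‖Ps x‖ * ‖Ps y‖ * ‖Ps z‖ := by positivity
      refine (sq_eq_sq₀ (norm_nonneg _) h0).1 ?_
      rw [heq, hn x, hn y, hn z]
      have : (C * ‖Ps x‖ * ‖Ps y‖ * ‖Ps z‖) ^ 2 =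
          C ^ 2 * (‖Ps x‖ ^ 2 * ‖Ps y‖ ^ 2 * ‖Ps z‖ ^ 2) := by ring
      rw [this, hC]
    obtain ⟨⟨s1, h1⟩, ⟨s2, h2⟩, ⟨s3, h3⟩⟩ := hB2 u (hequ e he) hC0 _ _ _ heq2 (hne x hx)
      (hne y hy) (hne z hz)
    refine ⟨⟨s1, ?_⟩, ⟨s2, ?_⟩, ⟨s3, ?_⟩⟩
    · rw [← hconst _ _ h1, Ph_Ps]
    · rw [← hconst _ _ h2, Ph_Ps]
    · rw [← hconst _ _ h3, Ph_Ps]

end Pool.Agent.Helper7.T4.IT
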